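import Mathlib

/-! The r-dynamic chromatic number is not linear in treewidth plus r. -/

open Set SimpleGraph

namespace Pool.Agent.Results.MP_96dc1b_co.Counter

/-- `G` has a tree decomposition all of whose bags have at most `w + 1` vertices -/
def HasWidth {V : Type} (G : SimpleGraph V) (w : ℕ) : Prop :=
  ∃ (ι : Type) (_ : Finite ι) (T : SimpleGraph ι) (B : ι → Set V), T.IsTree ∧
    (∀ u v, G.Adj u v → ∃ t, u ∈ B t ∧ v ∈ B t) ∧ (∀ v, (T.induce {t | v ∈ B t}).Connected) ∧
    ∀ t, (B t).ncard ≤ w + 1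

/-- treewidth -/
noncomputable def tw {V : Type} (G : SimpleGraph V) : ℕ := sInf {w | HasWidth G w}

/-- `r`-dynamic colourings -/
def IsDyn {V : Type} (G : SimpleGraph V) (r : ℕ) {k : ℕ} (φ : V → Fin k) : Prop :=
  (∀ u v, G.Adj u v → φ u ≠ φ v) ∧
    ∀ v, min r (G.neighborSet v).ncard ≤ (φ '' G.neighborSet v).ncard

/-- the `r`-dynamic chromatic number -/
noncomputable def chi {V : Type} (G : SimpleGraph V) (r : ℕ) : ℕ :=
  sInf {k | ∃ φ : V → Fin k, IsDyn G r φ}

abbrev W (q : ℕ) : Type := (Fin q × Fin q) ⊕ (Fin q × Fin (q * q))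

def H (q : ℕ) : SimpleGraph (W q) where
  Adj
    | .inl h, .inr m => m.1 = h.1 ∨ m.1 = h.2
    | .inr m, .inl h => m.1 = h.1 ∨ m.1 = h.2
    | _, _ => False
  symm := ⟨by rintro (u | u) (v | v) h <;> exact h⟩
  loopless := ⟨by rintro (u | u) h <;> exact h⟩

lemma width (q : ℕ) : HasWidth (H q) (q * q) := by
  refine ⟨Option (Fin q × Fin (q * q)), inferInstance, starGraph none,
    fun t => range Sum.inl ∪ Sum.inr '' {m | t = some m}, isTree_starGraph _, ?_, ?_, fun t => ?_⟩
  · rintro (u | u) (v | v) h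
    · exact h.elim
    · exact ⟨some v, Or.inl ⟨u, rfl⟩, Or.inr ⟨v, rfl, rfl⟩⟩
    · exact ⟨some u, Or.inr ⟨u, rfl, rfl⟩, Or.inl ⟨v, rfl⟩⟩
    · exact h.elim
  · rintro (v | v)
    · have : {t : Option (Fin q × Fin (q * q)) | (Sum.inl v : W q) ∈
          range Sum.inl ∪ Sum.inr '' {m | t = some m}} = univ := by
        ext t; simp
      rw [this]
      exact (induceUnivIso _).connected_iff.mpr (isTree_starGraph _).connected
    · have : {t : Option (Fin q × Fin (q * q)) | (Sum.inr v : W q) ∈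
          range Sum.inl ∪ Sum.inr '' {m | t = some m}} = {some v} := by
        ext t; simp
      rw [this]
      exact Connected.of_subsingleton
  · refine (ncard_union_le _ _).trans (add_le_add ?_ ?_)
    · rw [ncard_range_of_injective Sum.inl_injective]; simp
    · rw [ncard_image_of_injective _ Sum.inr_injective, ncard_le_one_iff_subsingleton]
      exact fun a ha b hb => Option.some_injective _ (ha.symm.trans hb)

lemma deg (q : ℕ) (h : Fin q × Fin q) : ((H q).neighborSet (.inl h)).ncard ≤ 2 * (q * q) := by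
  have : (H q).neighborSet (.inl h) ⊆ range (fun a => (Sum.inr (h.1, a) : W q)) ∪
      range (fun a => (Sum.inr (h.2, a) : W q)) := by
    rintro (v | ⟨i, a⟩) hv
    · exact hv.elim
    · rcases hv with rfl | rfl
      · exact Or.inl ⟨a, rfl⟩
      · exact Or.inr ⟨a, rfl⟩
  refine (ncard_le_ncard this).trans ((ncard_union_le _ _).trans ?_)
  rw [ncard_range_of_injective fun a b e => by simpa using e,
    ncard_range_of_injective fun a b e => by simpa using e]
  simp [two_mul]

lemma chi_ge (q : ℕ) : q * (q * q) ≤ chi (H q) (2 * (q * q)) := by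
  have hne : {k | ∃ φ : W q → Fin k, IsDyn (H q) (2 * (q * q)) φ}.Nonempty := by
    refine ⟨_, Fintype.equivFin _, fun u v h e => h.ne ((Fintype.equivFin _).injective e),
      fun v => ?_⟩
    rw [ncard_image_of_injective _ (Fintype.equivFin _).injective]
    exact min_le_right _ _
  obtain ⟨φ, -, h⟩ := Nat.sInf_mem hne
  have hi : Function.Injective fun m => φ (.inr m) := by
    intro m m' e
    have h1 := h (.inl (m.1, m'.1))
    rw [min_eq_right (deg q _)] at h1
    have h2 := injOn_of_ncard_image_eq (le_antisymm ncard_image_le h1)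
    exact Sum.inr_injective (h2 (Or.inl rfl) (Or.inr rfl) e)
  simpa [chi] using Fintype.card_le_of_injective _ hi

theorem result (C : ℝ) : ∃ (V : Type) (_ : Fintype V) (G : SimpleGraph V) (r : ℕ), 1 ≤ r ∧
    C * ((tw G : ℝ) + r) < chi G r := by
  obtain ⟨L, hL⟩ := exists_nat_gt (3 * |C|)
  have hq : 1 ≤ L := by
    have := abs_nonneg C
    exact_mod_cast Nat.cast_pos.mp (show (0 : ℝ) < L by linarith)
  refine ⟨W L, inferInstance, H L, 2 * (L * L), by nlinarith, ?_⟩
  have h1 : (tw (H L) : ℝ) ≤ (L * L : ℕ) := Nat.cast_le.mpr (Nat.sInf_le (width L))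
  have h2 : ((L * (L * L) : ℕ) : ℝ) ≤ chi (H L) (2 * (L * L)) := Nat.cast_le.mpr (chi_ge L)
  push_cast at h1 h2 ⊢
  have h3 : (0 : ℝ) < L * L := by positivity
  have h4 : (0 : ℝ) ≤ tw (H L) := Nat.cast_nonneg _
  have h5 := mul_le_mul_of_nonneg_right (le_abs_self C) (show (0 : ℝ) ≤ tw (H L) + 2 * (L * L) by
    positivity)
  nlinarith [mul_le_mul_of_nonneg_left h1 (abs_nonneg C)]

end Pool.Agent.Results.MP_96dc1b_co.Counter
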